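import Mathlib
import Pool.Agent.KS6_32.TC.Pair

/-!
# Spaces with dense isolated points: categoricity oracles compute the halting problem

Let `X` be an infinite computable Polish space whose isolated points are dense. There is a family
of presentations of `X` indexed by the c.e. sets such that an oracle which decides `W` and computes
a bijection from `M V` to `M W` decides `V`. Hence an oracle relative to which `X` is categorical
decides every c.e. set.
-/

set_option autoImplicit false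

namespace Pool.Agent.Results.MP_fa5791_lc.CategoricityDegree

open Pool.Agent.H37 Pool.Agent.H83.Tcc Pool.Agent.KS6_32.TC

/-- `X` is topologically categorical relative to the oracles `O`. -/
def TopCatIn (O : Set (ℕ →. ℕ)) (X : Type) [TopologicalSpace X] : Prop :=
  ∀ P Q : Pres, Nonempty (P.Y ≃ₜ X) → Nonempty (Q.Y ≃ₜ X) →
    ∃ f : P.Y ≃ₜ Q.Y, CompMapIn O P Q f ∧ CompMapIn O Q P f.symm

theorem result (X : Type) [TopologicalSpace X] [Infinite X] (hX : IsCompPolish X)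
    (hden : DenseIsolated X) :
    (∃ M : Set ℕ → Pres, (∀ V, Nonempty ((M V).Y ≃ₜ X)) ∧
      ∀ V W : Set ℕ, REPred (· ∈ V) → REPred (· ∈ W) → ∀ O : Set (ℕ →. ℕ), Decides O W →
        ∀ f : (M V).Y → (M W).Y, Function.Bijective f → CompMapIn O (M V) (M W) f →
          Decides O V) ∧
    ∀ O : Set (ℕ →. ℕ), TopCatIn O X → ∀ V : Set ℕ, REPred (· ∈ V) → Decides O V := by
  classical
  obtain ⟨P0, ⟨e0⟩⟩ := hX
  haveI : Infinite P0.Y := e0.toEquiv.infinite_iff.2 ‹_›
  obtain ⟨σ, hσ, hi, hd⟩ := P0.exists_inj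
  obtain ⟨P, e, hPi⟩ : ∃ (P : Pres) (_ : P.Y ≃ₜ X), Function.Injective P.c :=
    ⟨P0.sub σ hσ hd, e0, hi⟩
  haveI : Infinite P.Y := e.toEquiv.infinite_iff.2 ‹_›
  have hfam : ∃ M : Set ℕ → Pres, (∀ V, Nonempty ((M V).Y ≃ₜ X)) ∧
        ∀ V W : Set ℕ, REPred (· ∈ V) → REPred (· ∈ W) → ∀ O : Set (ℕ →. ℕ), Decides O W →
          ∀ f : (M V).Y → (M W).Y, Function.Bijective f → CompMapIn O (M V) (M W) f →
            Decides O V := by
    obtain ⟨N0, β, hi0, ⟨hN0⟩, hβ, hβi, iso⟩ := base P hPi (hden.homeo e.symm).metric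
    haveI : Infinite N0.Y := hN0.toEquiv.infinite_iff.2 ‹_›
    have hex : ∀ V : Set ℕ, ∃ M : Pres, Nonempty (M.Y ≃ₜ X) ∧
        (REPred (· ∈ V) → Good N0 V M) := fun V => by
      by_cases hV : REPred (· ∈ V)
      · obtain ⟨en, h1, h2, h3⟩ := re_enum hV
        obtain ⟨Q, j, ⟨hQ⟩, q1, q2, q3⟩ := fib N0 hi0
          ((hden.homeo e.symm).homeo hN0.symm).metric (evt en) (ci_evt h1) (evt_fin h3)
        exact ⟨Q, ⟨(hQ.trans hN0).trans e⟩, fun _ => ⟨en, j, h1, h2, h3, q1, q2, q3⟩⟩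
      · exact ⟨P, ⟨e⟩, fun h => absurd h hV⟩
    choose M hM1 hM2 using hex
    exact ⟨M, hM1, fun V W hV hW O hO f hf hc =>
      pair hi0 hβ hβi iso (hM2 V hV) (hM2 W hW) hO f hf hc⟩
  refine ⟨hfam, fun O hO V hV => ?_⟩
  obtain ⟨M, h1, h2⟩ := hfam
  obtain ⟨f, hf, -⟩ := hO (M V) (M ∅) (h1 V) (h1 ∅)
  refine h2 V ∅ hV ?_ O ⟨fun _ => false, by fun_prop, fun x => by simp⟩ f f.bijective hf
  have : ComputablePred fun x : ℕ => x ∈ (∅ : Set ℕ) :=
    ⟨fun x => isFalse (by simp), (Computable.const false).of_eq fun n => by simp⟩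
  exact this.to_re

end Pool.Agent.Results.MP_fa5791_lc.CategoricityDegree
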