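import Mathlib
import Pool.Agent.KS6_32.TC.Seq
import Pool.Agent.KS6_32.TC.CaseB

/-!
# Every infinite computable Polish space has infinite computable dimension

Every infinite computable Polish space has infinitely many presentations which are pairwise not
computably homeomorphic. In particular it is not topologically computably categorical.
-/

set_option autoImplicit false

namespace Pool.Agent.Results.MP_fa5791_lc.InfiniteDimension

open Pool.Agent.H37 Pool.Agent.H83.Tcc Pool.Agent.KS6_32.TC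

theorem exists_seq (P : Pres) [Infinite P.Y] :
    ∃ M : ℕ → Pres, (∀ n, Nonempty ((M n).Y ≃ₜ P.Y)) ∧
      (DenseIsolated P.Y → ∀ i j, i < j → ∀ f : (M i).Y → (M j).Y, Function.Bijective f →
        ¬ Commit (M i) (M j) f) ∧
      (¬ DenseIsolated P.Y → ∀ i j, i < j → ∀ f : (M j).Y → (M i).Y, Function.Injective f →
        ¬ Commit (M j) (M i) f) := by
  obtain ⟨σ, hσ, hi, hd⟩ := P.exists_inj
  haveI : Infinite (P.sub σ hσ hd).Y := ‹Infinite P.Y›
  by_cases hden : DenseIsolated P.Y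
  · obtain ⟨M, h1, h2⟩ := caseA_seq (P.sub σ hσ hd) hi hden
    exact ⟨M, h1, fun _ => h2, fun h => absurd hden h⟩
  have hden' := hden
  unfold DenseIsolated at hden'
  push Not at hden'
  obtain ⟨U, hU, ⟨x, hxU⟩, hx⟩ := hden'
  obtain ⟨ε, hε, hball⟩ := Metric.isOpen_iff.1 hU x hxU
  obtain ⟨i0, h0⟩ := hd.exists_dist_lt x (half_pos hε)
  obtain ⟨R0, hR⟩ := (ev_lt 1 (half_pos hε)).exists
  have key : ∀ z : P.Y, dist z (P.c (σ i0)) ≤ 1 / 2 ^ R0 → ∀ η > 0, ∀ K, ∃ n > K,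
      dist (P.c (σ n)) z < η := by
    intro z hz η hη K
    have hz' : dist z x < ε := by
      have : dist x (P.c (σ i0)) < ε / 2 := h0
      linarith [dist_triangle_right z x (P.c (σ i0))]
    have hf : ((P.c ∘ σ) '' Set.Iic K).Finite := (Set.finite_Iic K).image _
    obtain ⟨δ, hδ, h4⟩ := away (hf.subset Set.diff_subset :
      (((P.c ∘ σ) '' Set.Iic K) \ {z}).Finite) (z := z) (by simp)
    obtain ⟨u, h5, h6⟩ : ∃ u, dist u z < min η δ ∧ u ≠ z := by
      by_contra hno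
      push Not at hno
      refine hx z (hball hz') (Metric.isOpen_iff.2 fun w hw => ?_)
      rw [Set.mem_singleton_iff] at hw
      subst hw
      exact ⟨min η δ, by positivity, fun u hu => hno u hu⟩
    rw [lt_min_iff] at h5
    obtain ⟨n, h7, h8⟩ := hd.exists_mem_open (Metric.isOpen_ball.inter hf.isClosed.isOpen_compl)
      ⟨u, h5.1, fun h => h4 u h5.2 ⟨h, h6⟩⟩
    exact ⟨n, by_contra fun hn => h8 ⟨n, not_lt.1 hn, rfl⟩, h7⟩
  obtain ⟨M, h1, h2⟩ := caseB_seq (P.sub σ hσ hd) hi i0 R0 key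
  exact ⟨M, h1, fun h => absurd h hden, fun _ => h2⟩

theorem result (X : Type) [TopologicalSpace X] [Infinite X] (hX : IsCompPolish X) :
    ¬ TopCompCat X ∧
    ∃ M : ℕ → Pres, (∀ n, Function.Injective (M n).c ∧ Nonempty ((M n).Y ≃ₜ X)) ∧
      (∀ i j, i ≠ j → ∀ f : (M i).Y ≃ (M j).Y,
        ¬ (CompMap (M i) (M j) f ∧ CompMap (M j) (M i) f.symm)) ∧
      (DenseIsolated X → ∀ i j, i < j → ∀ f : (M i).Y → (M j).Y, Function.Bijective f →
        ¬ CompMap (M i) (M j) f) ∧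
      (¬ DenseIsolated X → ∀ i j, i < j → ∀ f : (M j).Y → (M i).Y, Function.Injective f →
        ¬ CompMap (M j) (M i) f) := by
  obtain ⟨P, ⟨e⟩⟩ := hX
  haveI : Infinite P.Y := e.toEquiv.infinite_iff.2 ‹_›
  obtain ⟨M0, h1, h2, h3⟩ := exists_seq P
  have hden : DenseIsolated P.Y ↔ DenseIsolated X := ⟨fun h => h.homeo e, fun h => h.homeo e.symm⟩
  rw [hden] at h2 h3
  haveI : ∀ n, Infinite (M0 n).Y := fun n => by
    obtain ⟨h⟩ := h1 n
    exact h.toEquiv.infinite_iff.2 ‹_›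
  choose σ a1 a2 a3 using fun n => (M0 n).exists_inj
  have A : DenseIsolated X → ∀ i j, i < j → ∀ f : (M0 i).Y → (M0 j).Y, Function.Bijective f →
      ¬ CompMap ((M0 i).sub (σ i) (a1 i) (a3 i)) ((M0 j).sub (σ j) (a1 j) (a3 j)) f :=
    fun h i j hij f hf hc => h2 h i j hij f hf hc.commit.of_sub
  have B : ¬ DenseIsolated X → ∀ i j, i < j → ∀ f : (M0 j).Y → (M0 i).Y, Function.Injective f →
      ¬ CompMap ((M0 j).sub (σ j) (a1 j) (a3 j)) ((M0 i).sub (σ i) (a1 i) (a3 i)) f :=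
    fun h i j hij f hf hc => h3 h i j hij f hf hc.commit.of_sub
  have C : ∀ i j, i ≠ j → ∀ f : (M0 i).Y ≃ (M0 j).Y,
      ¬ (CompMap ((M0 i).sub (σ i) (a1 i) (a3 i)) ((M0 j).sub (σ j) (a1 j) (a3 j)) f ∧
        CompMap ((M0 j).sub (σ j) (a1 j) (a3 j)) ((M0 i).sub (σ i) (a1 i) (a3 i)) f.symm) := by
    rintro i j hij f ⟨c1, c2⟩
    by_cases h : DenseIsolated X
    · rcases hij.lt_or_gt with h4 | h4
      · exact A h i j h4 f f.bijective c1
      · exact A h j i h4 f.symm f.symm.bijective c2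
    · rcases hij.lt_or_gt with h4 | h4
      · exact B h i j h4 f.symm f.symm.injective c2
      · exact B h j i h4 f f.injective c1
  refine ⟨fun hcat => ?_, fun n => (M0 n).sub (σ n) (a1 n) (a3 n),
    fun n => ⟨a2 n, (h1 n).map fun h => h.trans e⟩, C, A, B⟩
  obtain ⟨f, hf, hf'⟩ := hcat ((M0 0).sub (σ 0) (a1 0) (a3 0)) ((M0 1).sub (σ 1) (a1 1) (a3 1))
    ((h1 0).map fun h => h.trans e) ((h1 1).map fun h => h.trans e)
  exact C 0 1 (by decide) f.toEquiv ⟨hf, hf'⟩

end Pool.Agent.Results.MP_fa5791_lc.InfiniteDimension
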